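import Mathlib
import Pool.Agent.helper90.DHI.AllF
import Pool.Agent.helper69.DHR.AllROU

/-!
# The group of orientation-preserving `C^2` diffeomorphisms of the circle is simple

The group is defined here on the circle `ℝ / ℤ` itself. The deep part, in terms of lifts to the real
line, is proved in the files imported above (it is also the proof of the frozen statement `S01539`);
this file passes from lifts to the group.
-/

set_option autoImplicit false

namespace Pool.Agent.Results.MP_5823cb_al.SimpleDiffTwo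

/-- `F` is an increasing lift of class `C^2` of the map `f` of the circle `ℝ / ℤ`: `F` maps the
real line to itself, commutes with the translation by `1` and induces `f`. -/
def IsC2Lift (F : ℝ → ℝ) (f : AddCircle (1 : ℝ) → AddCircle (1 : ℝ)) : Prop :=
  ContDiff ℝ 2 F ∧ Monotone F ∧ (∀ x, F (x + 1) = F x + 1) ∧
    ∀ x : ℝ, f (x : AddCircle (1 : ℝ)) = (F x : AddCircle (1 : ℝ))

lemma IsC2Lift.id : IsC2Lift (fun x => x) (fun x => x) :=
  ⟨contDiff_id, monotone_id, fun _ => rfl, fun _ => rfl⟩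

lemma IsC2Lift.comp {F G : ℝ → ℝ} {f g : AddCircle (1 : ℝ) → AddCircle (1 : ℝ)}
    (hF : IsC2Lift F f) (hG : IsC2Lift G g) : IsC2Lift (fun x => F (G x)) (fun x => f (g x)) :=
  ⟨hF.1.comp hG.1, hF.2.1.comp hG.2.1,
    fun x => by show F (G (x + 1)) = F (G x) + 1; rw [hG.2.2.1, hF.2.2.1],
    fun x => by show f (g x) = (F (G x) : AddCircle (1 : ℝ)); rw [hG.2.2.2, hF.2.2.2]⟩

/-- The group of the orientation-preserving `C^2` diffeomorphisms of the circle `ℝ / ℤ`: the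
bijections `f` such that `f` and its inverse have increasing `C^2` lifts. -/
def DiffTwo : Subgroup (Equiv.Perm (AddCircle (1 : ℝ))) where
  carrier := {f | (∃ F : ℝ → ℝ, IsC2Lift F f) ∧ ∃ G : ℝ → ℝ, IsC2Lift G f.symm}
  one_mem' := ⟨⟨_, IsC2Lift.id⟩, ⟨_, IsC2Lift.id⟩⟩
  mul_mem' := by
    rintro f g ⟨⟨F, hF⟩, ⟨F', hF'⟩⟩ ⟨⟨G, hG⟩, ⟨G', hG'⟩⟩
    exact ⟨⟨_, hF.comp hG⟩, ⟨_, hG'.comp hF'⟩⟩
  inv_mem' := by
    rintro f ⟨hF, hG⟩
    exact ⟨hG, hF⟩

/-- a continuous map moving each point by an integer is a translation by an integer -/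
lemma exists_const {h : ℝ → ℝ} (hc : Continuous h) (hn : ∀ x, ∃ n : ℤ, h x = x + n) :
    ∃ n : ℤ, ∀ x, h x = x + n := by
  choose n hn using hn
  have h1 : Continuous n := by
    rw [Int.isClosedEmbedding_coe_real.isInducing.continuous_iff]
    have h2 : ((fun m : ℤ => (m : ℝ)) ∘ n) = fun x => h x - x := by
      funext x
      simp only [Function.comp, hn x]
      ring
    rw [h2]
    exact hc.sub continuous_id
  refine ⟨n 0, fun x => ?_⟩
  rw [hn x, PreconnectedSpace.constant inferInstance h1 (x := x) (y := 0)]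

lemma exists_int_of_coe_eq {x y : ℝ} (h : (x : AddCircle (1 : ℝ)) = (y : AddCircle (1 : ℝ))) :
    ∃ n : ℤ, x = y + n := by
  have h1 : ((x - y : ℝ) : AddCircle (1 : ℝ)) = 0 := by
    rw [AddCircle.coe_sub, h, sub_self]
  obtain ⟨n, hn⟩ := (AddCircle.coe_eq_zero_iff (1 : ℝ)).1 h1
  refine ⟨n, ?_⟩
  rw [zsmul_eq_mul, mul_one] at hn
  linarith

lemma coe_add_int (x : ℝ) (n : ℤ) : ((x + n : ℝ) : AddCircle (1 : ℝ)) = (x : AddCircle (1 : ℝ)) := by
  rw [AddCircle.coe_add]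
  have h1 : ((n : ℝ) : AddCircle (1 : ℝ)) = 0 := by
    rw [AddCircle.coe_eq_zero_iff]
    exact ⟨n, by simp⟩
  rw [h1, add_zero]

/-- every element of the group is induced by a unit of `CircleDeg1Lift` -/
lemma exists_unit {f : Equiv.Perm (AddCircle (1 : ℝ))} (hf : f ∈ DiffTwo) :
    ∃ u : CircleDeg1Liftˣ, ContDiff ℝ 2 ⇑(u : CircleDeg1Lift) ∧
      ContDiff ℝ 2 ⇑((u⁻¹ : CircleDeg1Liftˣ) : CircleDeg1Lift) ∧
      ∀ x : ℝ, f (x : AddCircle (1 : ℝ)) = ((u : CircleDeg1Lift) x : AddCircle (1 : ℝ)) := by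
  obtain ⟨⟨F, hF1, hF2, hF3, hF4⟩, ⟨G, hG1, hG2, hG3, hG4⟩⟩ := hf
  have h1 : ∀ x, ∃ n : ℤ, F (G x) = x + n := by
    intro x
    apply exists_int_of_coe_eq
    rw [← hF4, ← hG4, Equiv.apply_symm_apply]
  have h2 : ∀ x, ∃ n : ℤ, G (F x) = x + n := by
    intro x
    apply exists_int_of_coe_eq
    rw [← hG4, ← hF4, Equiv.symm_apply_apply]
  obtain ⟨n, hn⟩ := exists_const (hF1.continuous.comp hG1.continuous) h1
  obtain ⟨m, hm⟩ := exists_const (hG1.continuous.comp hF1.continuous) h2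
  simp only [Function.comp] at hn hm
  let u0 : CircleDeg1Lift := ⟨⟨F, hF2⟩, hF3⟩
  let v0 : CircleDeg1Lift := ⟨⟨G, hG2⟩, hG3⟩
  have hu0 : ∀ x, u0 x = F x := fun x => rfl
  have hv0 : ∀ x, v0 x = G x := fun x => rfl
  have hFn : ∀ (x : ℝ) (k : ℤ), F (x - k) = F x - k := fun x k => u0.map_sub_int x k
  have hFn' : ∀ (x : ℝ) (k : ℤ), F (x + k) = F x + k := fun x k => u0.map_add_int x k
  -- the corrected inverse
  let v : CircleDeg1Lift := ⟨⟨fun x => G x - n, fun x y hxy => sub_le_sub_right (hG2 hxy) _⟩,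
    fun x => by show G (x + 1) - n = G x - n + 1; rw [hG3]; ring⟩
  have hv : ∀ x, v x = G x - n := fun x => rfl
  have huv : ∀ x, F (G x - n) = x := by
    intro x
    rw [hFn, hn]; ring
  have hmn : (m : ℝ) = n := by
    have h3 : F (G (F 0) - n) = F 0 := huv (F 0)
    rw [hm 0] at h3
    have h4 : F (0 + (m : ℝ) - n) = F 0 + m - n := by rw [hFn, hFn']
    rw [h4] at h3
    linarith
  have hvu : ∀ x, G (F x) - n = x := by
    intro x
    rw [hm, hmn]; ring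
  let u : CircleDeg1Liftˣ := ⟨u0, v, by ext x; exact huv x, by ext x; exact hvu x⟩
  refine ⟨u, hF1, hG1.sub contDiff_const, hF4⟩

/-- every unit of `CircleDeg1Lift` of class `C^2` induces an element of the group -/
lemma exists_perm (u : CircleDeg1Liftˣ) (h1 : ContDiff ℝ 2 ⇑(u : CircleDeg1Lift))
    (h2 : ContDiff ℝ 2 ⇑((u⁻¹ : CircleDeg1Liftˣ) : CircleDeg1Lift)) :
    ∃ f : DiffTwo, ∀ x : ℝ, (f : Equiv.Perm (AddCircle (1 : ℝ))) (x : AddCircle (1 : ℝ)) =
      ((u : CircleDeg1Lift) x : AddCircle (1 : ℝ)) := by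
  have hper : ∀ w : CircleDeg1Lift,
      Function.Periodic (fun x : ℝ => ((w x : ℝ) : AddCircle (1 : ℝ))) 1 := by
    intro w x
    show ((w (x + 1) : ℝ) : AddCircle (1 : ℝ)) = ((w x : ℝ) : AddCircle (1 : ℝ))
    rw [w.map_add_one, AddCircle.coe_add, AddCircle.coe_period, add_zero]
  let E : Equiv.Perm (AddCircle (1 : ℝ)) :=
    { toFun := (hper u).lift
      invFun := (hper (u⁻¹ : CircleDeg1Liftˣ)).lift
      left_inv := by
        intro z
        induction z using QuotientAddGroup.induction_on with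
        | H x =>
          show (hper (u⁻¹ : CircleDeg1Liftˣ)).lift ((hper u).lift ((x : ℝ) : AddCircle (1 : ℝ))) = _
          rw [Function.Periodic.lift_coe, Function.Periodic.lift_coe,
            CircleDeg1Lift.units_inv_apply_apply]
      right_inv := by
        intro z
        induction z using QuotientAddGroup.induction_on with
        | H x =>
          show (hper u).lift ((hper (u⁻¹ : CircleDeg1Liftˣ)).lift ((x : ℝ) : AddCircle (1 : ℝ))) = _
          rw [Function.Periodic.lift_coe, Function.Periodic.lift_coe,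
            CircleDeg1Lift.units_apply_inv_apply] }
  have hE : ∀ x : ℝ, E (x : AddCircle (1 : ℝ)) = ((u : CircleDeg1Lift) x : AddCircle (1 : ℝ)) :=
    fun x => (hper u).lift_coe x
  have hE' : ∀ x : ℝ, E.symm (x : AddCircle (1 : ℝ)) =
      (((u⁻¹ : CircleDeg1Liftˣ) : CircleDeg1Lift) x : AddCircle (1 : ℝ)) :=
    fun x => (hper (u⁻¹ : CircleDeg1Liftˣ)).lift_coe x
  exact ⟨⟨E, ⟨_, h1, (u : CircleDeg1Lift).monotone, (u : CircleDeg1Lift).map_add_one, hE⟩,
    ⟨_, h2, ((u⁻¹ : CircleDeg1Liftˣ) : CircleDeg1Lift).monotone,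
      ((u⁻¹ : CircleDeg1Liftˣ) : CircleDeg1Lift).map_add_one, hE'⟩⟩, hE⟩

lemma perm_ext {f g : Equiv.Perm (AddCircle (1 : ℝ))}
    (h : ∀ x : ℝ, f (x : AddCircle (1 : ℝ)) = g (x : AddCircle (1 : ℝ))) : f = g := by
  ext z
  induction z using QuotientAddGroup.induction_on with
  | H x => exact h x

/-- a unit inducing the identity is an integer translation -/
lemma eq_translate {u : CircleDeg1Liftˣ} (h1 : ContDiff ℝ 2 ⇑(u : CircleDeg1Lift))
    (h : ∀ x : ℝ, ((u : CircleDeg1Lift) x : AddCircle (1 : ℝ)) = (x : AddCircle (1 : ℝ))) :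
    ∃ n : ℤ, u = CircleDeg1Lift.translate (Multiplicative.ofAdd (n : ℝ)) := by
  obtain ⟨n, hn⟩ := exists_const h1.continuous (fun x => exists_int_of_coe_eq (h x))
  refine ⟨n, ?_⟩
  ext x
  rw [hn x, CircleDeg1Lift.translate_apply]
  ring

lemma translate_coe (n : ℤ) (x : ℝ) :
    (((CircleDeg1Lift.translate (Multiplicative.ofAdd (n : ℝ)) : CircleDeg1Liftˣ) :
      CircleDeg1Lift) x : AddCircle (1 : ℝ)) = (x : AddCircle (1 : ℝ)) := by
  rw [CircleDeg1Lift.translate_apply, add_comm, coe_add_int]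

theorem simple_of_lifts (H :
    (∃ f : CircleDeg1Liftˣ,
        ContDiff ℝ 2 ⇑(f : CircleDeg1Lift) ∧
        ContDiff ℝ 2 ⇑((f⁻¹ : CircleDeg1Liftˣ) : CircleDeg1Lift) ∧
        ∀ n : ℤ, f ≠ CircleDeg1Lift.translate (Multiplicative.ofAdd (n : ℝ))) ∧
    ∀ f g : CircleDeg1Liftˣ,
      ContDiff ℝ 2 ⇑(f : CircleDeg1Lift) →
      ContDiff ℝ 2 ⇑((f⁻¹ : CircleDeg1Liftˣ) : CircleDeg1Lift) →
      ContDiff ℝ 2 ⇑(g : CircleDeg1Lift) →
      ContDiff ℝ 2 ⇑((g⁻¹ : CircleDeg1Liftˣ) : CircleDeg1Lift) →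
      (∀ n : ℤ, f ≠ CircleDeg1Lift.translate (Multiplicative.ofAdd (n : ℝ))) →
      g ∈ Subgroup.closure
        ({x : CircleDeg1Liftˣ | ∃ h : CircleDeg1Liftˣ,
            ContDiff ℝ 2 ⇑(h : CircleDeg1Lift) ∧
            ContDiff ℝ 2 ⇑((h⁻¹ : CircleDeg1Liftˣ) : CircleDeg1Lift) ∧
            x = h * f * h⁻¹} ∪
          Set.range (fun n : ℤ => CircleDeg1Lift.translate (Multiplicative.ofAdd (n : ℝ))))) :
    IsSimpleGroup DiffTwo := by
  obtain ⟨⟨f0, hf0, hf0', hf0n⟩, H⟩ := H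
  obtain ⟨φ0, hφ0⟩ := exists_perm f0 hf0 hf0'
  have hne : φ0 ≠ 1 := by
    intro h
    obtain ⟨n, hn⟩ := eq_translate hf0 (fun x => by rw [← hφ0 x, h]; rfl)
    exact hf0n n hn
  have : Nontrivial DiffTwo := ⟨⟨φ0, 1, hne⟩⟩
  refine ⟨fun N hN => ?_⟩
  by_cases hbot : N = ⊥
  · exact Or.inl hbot
  right
  obtain ⟨φ, hφN, hφ1⟩ : ∃ φ ∈ N, φ ≠ 1 := by
    by_contra hcon
    push Not at hcon
    exact hbot ((Subgroup.eq_bot_iff_forall N).2 hcon)
  obtain ⟨f, hf1, hf2, hf3⟩ := exists_unit φ.2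
  have hfn : ∀ n : ℤ, f ≠ CircleDeg1Lift.translate (Multiplicative.ofAdd (n : ℝ)) := by
    intro n hn
    apply hφ1
    apply Subtype.ext
    apply perm_ext
    intro x
    rw [hf3 x, hn, translate_coe]
    rfl
  rw [eq_top_iff]
  intro ψ _
  obtain ⟨g, hg1, hg2, hg3⟩ := exists_unit ψ.2
  have key : ∀ u ∈ Subgroup.closure
        ({x : CircleDeg1Liftˣ | ∃ h : CircleDeg1Liftˣ,
            ContDiff ℝ 2 ⇑(h : CircleDeg1Lift) ∧
            ContDiff ℝ 2 ⇑((h⁻¹ : CircleDeg1Liftˣ) : CircleDeg1Lift) ∧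
            x = h * f * h⁻¹} ∪
          Set.range (fun n : ℤ => CircleDeg1Lift.translate (Multiplicative.ofAdd (n : ℝ)))),
      ∃ χ : DiffTwo, χ ∈ N ∧ ∀ x : ℝ, (χ : Equiv.Perm (AddCircle (1 : ℝ)))
        (x : AddCircle (1 : ℝ)) = ((u : CircleDeg1Lift) x : AddCircle (1 : ℝ)) := by
    have hinv : ∀ (χ : DiffTwo) (u : CircleDeg1Liftˣ),
        (∀ x : ℝ, (χ : Equiv.Perm (AddCircle (1 : ℝ))) (x : AddCircle (1 : ℝ)) =
          ((u : CircleDeg1Lift) x : AddCircle (1 : ℝ))) →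
        ∀ x : ℝ, ((χ⁻¹ : DiffTwo) : Equiv.Perm (AddCircle (1 : ℝ))) (x : AddCircle (1 : ℝ)) =
          (((u⁻¹ : CircleDeg1Liftˣ) : CircleDeg1Lift) x : AddCircle (1 : ℝ)) := by
      intro χ u hχ x
      have h1 := hχ (((u⁻¹ : CircleDeg1Liftˣ) : CircleDeg1Lift) x)
      rw [CircleDeg1Lift.units_apply_inv_apply] at h1
      rw [← h1]
      exact Equiv.symm_apply_apply (χ : Equiv.Perm (AddCircle (1 : ℝ))) _
    intro u hu
    induction hu using Subgroup.closure_induction with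
    | mem u hu =>
      rcases hu with ⟨h, hh1, hh2, rfl⟩ | ⟨n, rfl⟩
      · obtain ⟨η, hη⟩ := exists_perm h hh1 hh2
        refine ⟨η * φ * η⁻¹, hN.conj_mem φ hφN η, fun x => ?_⟩
        show (η : Equiv.Perm (AddCircle (1 : ℝ))) ((φ : Equiv.Perm (AddCircle (1 : ℝ)))
          (((η⁻¹ : DiffTwo) : Equiv.Perm (AddCircle (1 : ℝ))) (x : AddCircle (1 : ℝ)))) = _
        rw [hinv η h hη x, hf3, hη]
        rfl
      · refine ⟨1, N.one_mem, fun x => ?_⟩
        rw [translate_coe]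
        rfl
    | one => exact ⟨1, N.one_mem, fun x => rfl⟩
    | mul u v _ _ hu hv =>
      obtain ⟨χ, hχ, hχ'⟩ := hu
      obtain ⟨ξ, hξ, hξ'⟩ := hv
      refine ⟨χ * ξ, N.mul_mem hχ hξ, fun x => ?_⟩
      show (χ : Equiv.Perm (AddCircle (1 : ℝ))) ((ξ : Equiv.Perm (AddCircle (1 : ℝ)))
        (x : AddCircle (1 : ℝ))) = _
      rw [hξ', hχ']
      rfl
    | inv u _ hu =>
      obtain ⟨χ, hχ, hχ'⟩ := hu
      exact ⟨χ⁻¹, N.inv_mem hχ, hinv χ u hχ'⟩
  obtain ⟨χ, hχ, hχ'⟩ := key g (H f g hf1 hf2 hg1 hg2 hfn)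
  have h1 : χ = ψ := by
    apply Subtype.ext
    apply perm_ext
    intro x
    rw [hχ' x, hg3 x]
  rw [← h1]
  exact hχ

/-- The group of the orientation-preserving `C^2` diffeomorphisms of the circle is simple. -/
theorem result : IsSimpleGroup DiffTwo :=
  simple_of_lifts (Pool.Agent.helper90.DH.AllF_S Pool.Agent.helper90.DH.AllROU_ROU
    Pool.Agent.helper90.DH.AllROU_RLC Pool.Agent.helper90.DH.AllROU_RST)

end Pool.Agent.Results.MP_5823cb_al.SimpleDiffTwo
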